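import Mathlib
import Pool.Agent.Y52.RS.Stm

/-!
# Relative torsion freeness from the labelled action
-/

set_option autoImplicit false

namespace Pool.Agent.Y67.RT

open Pool.Agent.Y52.RS

/-- collecting conjugates -/
theorem collect {F C : Type} [Group F] [Group C] (φ : C →* F) (n0 : F) (M : List C) :
    ∃ L : List F, L.length = M.length ∧
      (M.map (fun d => n0 * φ d)).prod = (L.map (fun h => h * n0 * h⁻¹)).prod * φ M.prod := by
  induction M with
  | nil => exact ⟨[], rfl, by simp⟩
  | cons d M ih =>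
    obtain ⟨L, hL, h⟩ := ih
    refine ⟨1 :: L.map (fun g => φ d * g), by simp [hL], ?_⟩
    have h1 : ∀ L : List F, ((L.map (fun g => φ d * g)).map (fun h => h * n0 * h⁻¹)).prod =
        φ d * (L.map (fun h => h * n0 * h⁻¹)).prod * (φ d)⁻¹ := by
      intro L
      induction L with
      | nil => simp
      | cons g L ih =>
        simp only [List.map_cons, List.prod_cons] at ih ⊢
        rw [ih]
        group
    rw [List.map_cons, List.prod_cons, h, List.map_cons, List.prod_cons, h1, List.prod_cons, map_mul]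
    group

theorem main : S_RT := by
  intro F C T _ _ _ φ π θ hR hT hp hcrd
  refine ⟨hR, ⟨T, 1, θ, hcrd⟩, ?_⟩
  intro x hx L hL ⟨c0, hc0⟩
  have hπφ : ∀ c, π (φ c) = 1 := by
    intro c
    have h1 := hp (φ c) 1
    rw [hcrd, mul_one] at h1
    exact h1.symm
  have hπx : π x = 1 := by
    apply hT (π x) L.length (by simpa using hL)
    have h1 := congrArg π hc0
    rw [hπφ, map_list_prod, List.map_map] at h1
    have h2 : L.map (π ∘ fun c => x * φ c) = List.replicate L.length (π x) := by
      rw [List.eq_replicate_iff]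
      refine ⟨by simp, fun b hb => ?_⟩
      obtain ⟨c, -, rfl⟩ := List.mem_map.1 hb
      simp [hπφ]
    rw [h2, List.prod_replicate] at h1
    exact h1.symm
  set ρ : F → C := fun y => (θ y).f 1 with hρ
  have hmul : ∀ y y', π y' = 1 → ρ (y * y') = ρ y * ρ y' := by
    intro y y' h
    simp only [hρ]
    rw [map_mul, LW.mul_f, hp, h, mul_one]
  have hρφ : ∀ c, ρ (φ c) = c := by
    intro c
    simp only [hρ]
    rw [hcrd]
    simp [crd]
  have hρ1 : ρ 1 = 1 := by
    rw [← map_one φ, hρφ]
  set n0 := x * (φ (ρ x))⁻¹ with hn0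
  have hπn : π n0 = 1 := by
    rw [hn0, map_mul, map_inv, hπφ, hπx, inv_one, mul_one]
  have hρn : ρ n0 = 1 := by
    rw [hn0, ← map_inv, hmul _ _ (hπφ _), hρφ, mul_inv_cancel]
  have hn1 : n0 ≠ 1 := by
    intro h
    apply hx
    rw [hn0, mul_inv_eq_one] at h
    exact ⟨ρ x, h.symm⟩
  set M := L.map (fun c => ρ x * c) with hM
  have hLM : L.map (fun c => x * φ c) = M.map (fun d => n0 * φ d) := by
    rw [hM, List.map_map]
    refine List.map_congr_left fun c _ => ?_
    simp only [Function.comp]
    rw [hn0, map_mul]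
    group
  obtain ⟨L', hL', h⟩ := collect φ n0 M
  -- the value of the product
  have hval : ∀ M : List C, π (M.map (fun d => n0 * φ d)).prod = 1 ∧
      ρ (M.map (fun d => n0 * φ d)).prod = M.prod := by
    intro M
    induction M with
    | nil => exact ⟨by simp, by simpa using hρ1⟩
    | cons d M ih =>
      rw [List.map_cons, List.prod_cons, List.prod_cons]
      refine ⟨by rw [map_mul, map_mul, hπn, hπφ, ih.1]; simp, ?_⟩
      rw [hmul _ _ ih.1, ih.2, hmul _ _ (hπφ d), hρn, hρφ, one_mul]
  have hc : c0 = M.prod := by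
    rw [← (hval M).2, ← hLM, ← hc0, hρφ]
  rw [← hLM, ← hc0, hc] at h
  have h1 : (L'.map (fun h => h * n0 * h⁻¹)).prod = 1 := by
    have h2 := h.symm
    rwa [mul_eq_right] at h2
  refine hR n0 hn1 L' ?_ h1
  intro h0
  rw [h0] at hL'
  simp [hM] at hL'
  exact hL (List.length_eq_zero_iff.1 hL'.symm)

end Pool.Agent.Y67.RT
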